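import Pool.Agent.Lib.Pdaec8e.Bridge

/-!
Absolute continuity of the spectrum of leaky periodic curves: for every coupling constant `α > 0` and
every periodic curve, all spectral measures of the Hamiltonian `H_{α,Γ}` are absolutely continuous.
The definitions are in `Pool/Agent/Lib/Pdaec8e/Leaky.lean`.
-/

set_option autoImplicit false

open MeasureTheory Pool.Agent.Lib.Pdaec8e.Leaky

namespace Pool.Agent.Results.MP_daec8e_mp.PurelyAC

/-- For every periodic curve `Γ` and every `α > 0`: every `ψ ∈ H¹(ℝ²)` has a unique trace on `Γ`, and the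
form `q_{α,Γ}` defines a self-adjoint operator `H = H_{α,Γ}` in `L²(ℝ²)` whose spectrum is purely
absolutely continuous. -/
theorem result (Γ : PeriodicCurve) (α : ℝ) (hα : 0 < α) :
    (∀ (ψ : L2Plane) (G : Fin 2 → L2Plane), IsH1 ψ G → ∃! τ : L2Line, IsH1Trace Γ ψ G τ) ∧
    ∃ H : L2Plane →ₗ.[ℂ] L2Plane,
      IsHamiltonian Γ α H ∧ IsSelfAdjoint H ∧ PurelyAbsolutelyContinuous H :=
  Pool.Agent.Lib.Pdaec8e.Leaky.main Γ α hα

end Pool.Agent.Results.MP_daec8e_mp.PurelyAC
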